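import Pool.Agent.Y674.TR.Stm2

set_option autoImplicit false

/-! TR2-PB: the size of the coefficients. -/

namespace Pool.Agent.Y465.TR

open Polynomial Pool.Agent.Y674.TR

theorem eval_nn (P : ℤ[X]) (h : ∀ i, 0 ≤ P.coeff i) : 0 ≤ P.eval 1 := by
  rw [eval_eq_sum_range]
  refine Finset.sum_nonneg fun i _ => ?_
  rw [one_pow, mul_one]
  exact h i

theorem coeff_le (P : ℤ[X]) (h : ∀ i, 0 ≤ P.coeff i) (i : ℕ) : P.coeff i ≤ P.eval 1 := by
  by_cases hi : i ≤ P.natDegree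
  · rw [eval_eq_sum_range]
    have h1 : P.coeff i = P.coeff i * 1 ^ i := by rw [one_pow, mul_one]
    rw [h1]
    refine Finset.single_le_sum (f := fun i => P.coeff i * 1 ^ i) (fun j _ => ?_)
      (Finset.mem_range.2 (by omega))
    rw [one_pow, mul_one]
    exact h j
  · rw [coeff_eq_zero_of_natDegree_lt (by omega)]
    exact eval_nn P h

/-- families with coefficients of polynomial size -/
def G (p : ℤ → ℤ → ℤ[X]) : Prop := ∃ c k : ℕ, ∀ A B : ℤ, 1 ≤ max |A| |B| → ∃ P : ℤ[X],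
  (∀ i, |(p A B).coeff i| ≤ P.coeff i) ∧ P.eval 1 ≤ (c : ℤ) * (max |A| |B|) ^ k

theorem G_const (a : ℤ) : G (fun _ _ => C a) := by
  refine ⟨a.natAbs, 0, fun A B _ => ⟨C |a|, fun i => ?_, ?_⟩⟩
  · rw [coeff_C, coeff_C]
    split_ifs <;> simp
  · rw [eval_C, pow_zero, mul_one, Int.natCast_natAbs]

theorem G_one : G (fun _ _ => 1) := by
  have h := G_const 1
  rwa [C_1] at h

theorem G_zero : G (fun _ _ => 0) := by
  have h := G_const 0
  rwa [C_0] at h

theorem G_A : G (fun A _ => C A) := by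
  refine ⟨1, 1, fun A B _ => ⟨C |A|, fun i => ?_, ?_⟩⟩
  · rw [coeff_C, coeff_C]
    split_ifs <;> simp
  · rw [eval_C, pow_one, Nat.cast_one, one_mul]
    exact le_max_left _ _

theorem G_B : G (fun _ B => C B) := by
  refine ⟨1, 1, fun A B _ => ⟨C |B|, fun i => ?_, ?_⟩⟩
  · rw [coeff_C, coeff_C]
    split_ifs <;> simp
  · rw [eval_C, pow_one, Nat.cast_one, one_mul]
    exact le_max_right _ _

theorem G_X : G (fun _ _ => X) := by
  refine ⟨1, 0, fun A B _ => ⟨X, fun i => ?_, ?_⟩⟩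
  · rw [coeff_X]
    split_ifs <;> simp
  · rw [eval_X, pow_zero, mul_one, Nat.cast_one]

theorem bnd_add {H : ℤ} (hH : 1 ≤ H) (c c' k k' : ℕ) :
    (c : ℤ) * H ^ k + (c' : ℤ) * H ^ k' ≤ ((c + c' : ℕ) : ℤ) * H ^ (k + k') := by
  have h1 : H ^ k ≤ H ^ (k + k') := pow_le_pow_right₀ hH (Nat.le_add_right _ _)
  have h2 : H ^ k' ≤ H ^ (k + k') := pow_le_pow_right₀ hH (Nat.le_add_left _ _)
  have h3 := mul_le_mul_of_nonneg_left h1 (Int.natCast_nonneg c)
  have h4 := mul_le_mul_of_nonneg_left h2 (Int.natCast_nonneg c')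
  push_cast
  linarith

theorem G.add {p q : ℤ → ℤ → ℤ[X]} (hp : G p) (hq : G q) : G (fun A B => p A B + q A B) := by
  obtain ⟨c, k, h1⟩ := hp
  obtain ⟨c', k', h2⟩ := hq
  refine ⟨c + c', k + k', fun A B hH => ?_⟩
  obtain ⟨P, h3, h4⟩ := h1 A B hH
  obtain ⟨Q, h5, h6⟩ := h2 A B hH
  refine ⟨P + Q, fun i => ?_, ?_⟩
  · rw [coeff_add, coeff_add]
    exact (abs_add_le _ _).trans (add_le_add (h3 i) (h5 i))
  · rw [eval_add]
    exact (add_le_add h4 h6).trans (bnd_add hH c c' k k')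

theorem G.neg {p : ℤ → ℤ → ℤ[X]} (hp : G p) : G (fun A B => -p A B) := by
  obtain ⟨c, k, h1⟩ := hp
  refine ⟨c, k, fun A B hH => ?_⟩
  obtain ⟨P, h3, h4⟩ := h1 A B hH
  refine ⟨P, fun i => ?_, h4⟩
  rw [coeff_neg, abs_neg]
  exact h3 i

theorem G.sub {p q : ℤ → ℤ → ℤ[X]} (hp : G p) (hq : G q) : G (fun A B => p A B - q A B) := by
  have h := hp.add hq.neg
  have e : (fun A B => p A B - q A B) = fun A B => p A B + -q A B := by
    funext A B
    rw [sub_eq_add_neg]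
  rw [e]
  exact h

theorem G.mul {p q : ℤ → ℤ → ℤ[X]} (hp : G p) (hq : G q) : G (fun A B => p A B * q A B) := by
  obtain ⟨c, k, h1⟩ := hp
  obtain ⟨c', k', h2⟩ := hq
  refine ⟨c * c', k + k', fun A B hH => ?_⟩
  obtain ⟨P, h3, h4⟩ := h1 A B hH
  obtain ⟨Q, h5, h6⟩ := h2 A B hH
  have hP : ∀ i, 0 ≤ P.coeff i := fun i => (abs_nonneg _).trans (h3 i)
  have hQ : ∀ i, 0 ≤ Q.coeff i := fun i => (abs_nonneg _).trans (h5 i)
  refine ⟨P * Q, fun i => ?_, ?_⟩
  · rw [coeff_mul, coeff_mul]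
    refine (Finset.abs_sum_le_sum_abs _ _).trans (Finset.sum_le_sum fun x _ => ?_)
    rw [abs_mul]
    exact mul_le_mul (h3 _) (h5 _) (abs_nonneg _) (hP _)
  · rw [eval_mul]
    refine (mul_le_mul h4 h6 (eval_nn Q hQ) ((eval_nn P hP).trans h4)).trans_eq ?_
    push_cast
    ring

theorem G.pow {p : ℤ → ℤ → ℤ[X]} (hp : G p) (n : ℕ) : G (fun A B => p A B ^ n) := by
  induction n with
  | zero =>
    have e : (fun A B => p A B ^ 0) = fun _ _ => 1 := by
      funext A B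
      rw [pow_zero]
    rw [e]
    exact G_one
  | succ n ih =>
    have e : (fun A B => p A B ^ (n + 1)) = fun A B => p A B ^ n * p A B := by
      funext A B
      rw [pow_succ]
    rw [e]
    exact ih.mul hp

theorem G_c2A : G (fun A _ => C (2 * A)) := by
  have h := (G_const 2).mul G_A
  have e : (fun A _ : ℤ => (C (2 * A) : ℤ[X])) = fun A _ => C 2 * C A := by
    funext A B
    rw [C_mul]
  rw [e]
  exact h

theorem G_cB (a : ℤ) : G (fun _ B => C (a * B)) := by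
  have h := (G_const a).mul G_B
  have e : (fun _ B : ℤ => (C (a * B) : ℤ[X])) = fun _ B => C a * C B := by
    funext A B
    rw [C_mul]
  rw [e]
  exact h

theorem G_A2 : G (fun A _ => C (A ^ 2)) := by
  have h := G_A.pow 2
  have e : (fun A _ : ℤ => (C (A ^ 2) : ℤ[X])) = fun A _ => (C A) ^ 2 := by
    funext A B
    rw [C_pow]
  rw [e]
  exact h

theorem G_dbl {p q : ℤ → ℤ → ℤ[X]} (hp : G p) (hq : G q) :
    G (fun A B => (dblP A B (p A B, q A B)).1) ∧ G (fun A B => (dblP A B (p A B, q A B)).2) := by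
  constructor
  · exact (((hp.pow 4).sub ((G_c2A.mul (hp.pow 2)).mul (hq.pow 2))).sub
      (((G_cB 8).mul hp).mul (hq.pow 3))).add (G_A2.mul (hq.pow 4))
  · exact ((G_const 4).mul hq).mul (((hp.pow 3).add ((G_A.mul hp).mul (hq.pow 2))).add
      (G_B.mul (hq.pow 3)))

theorem G_add {p q p' q' : ℤ → ℤ → ℤ[X]} (hp : G p) (hq : G q) (hp' : G p') (hq' : G q') :
    G (fun A B => (addP A B (p A B, q A B) (p' A B, q' A B)).1) ∧
      G (fun A B => (addP A B (p A B, q A B) (p' A B, q' A B)).2) := by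
  have h1 : G (fun A B => (p A B * q' A B - p' A B * q A B) ^ 2) :=
    ((hp.mul hq').sub (hp'.mul hq)).pow 2
  constructor
  · exact ((G_const 2).mul ((((hp.mul hq').add (hp'.mul hq)).mul ((hp.mul hp').add
      (G_A.mul (hq.mul hq')))).add ((G_cB 2).mul ((hq.pow 2).mul (hq'.pow 2))))).sub
      (G_X.mul h1)
  · exact h1

theorem G_ND (n : ℕ) : G (fun A B => (ND A B n).1) ∧ G (fun A B => (ND A B n).2) := by
  induction n using Nat.strong_induction_on with
  | _ n ih =>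
    rcases Nat.eq_zero_or_pos n with h0 | h0
    · subst h0
      have e : ∀ A B, ND A B 0 = (1, 0) := fun A B => by
        rw [ND]
        simp
      simp only [e]
      exact ⟨G_one, G_zero⟩
    · rcases Nat.lt_or_ge n 2 with h1 | h1
      · have h2 : n = 1 := by omega
        subst h2
        simp only [ND_one]
        exact ⟨G_X, G_one⟩
      · rcases Nat.even_or_odd' n with ⟨k, hk | hk⟩
        · have hk1 : 1 ≤ k := by omega
          obtain ⟨h3, h4⟩ := ih k (by omega)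
          subst hk
          simp only [ND_even _ _ k hk1]
          exact G_dbl h3 h4
        · have hk1 : 1 ≤ k := by omega
          obtain ⟨h3, h4⟩ := ih k (by omega)
          obtain ⟨h5, h6⟩ := ih (k + 1) (by omega)
          subst hk
          simp only [ND_odd _ _ k hk1]
          exact G_add h3 h4 h5 h6

theorem G_Wp (n : ℕ) : G (fun A B => Wp A B n) :=
  ((G_ND n).1.mul (G_ND (n + 1)).2).sub ((G_ND (n + 1)).1.mul (G_ND n).2)

theorem pb : PB := by
  intro n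
  obtain ⟨c1, k1, h1⟩ := (G_ND n).1
  obtain ⟨c2, k2, h2⟩ := (G_ND n).2
  obtain ⟨c3, k3, h3⟩ := G_Wp n
  refine ⟨c1 + c2 + c3 + 1, k1 + k2 + k3, by omega, fun A B hH i => ?_⟩
  have key : ∀ (p : ℤ[X]) (c k : ℕ), c ≤ c1 + c2 + c3 + 1 → k ≤ k1 + k2 + k3 →
      (∃ P : ℤ[X], (∀ i, |p.coeff i| ≤ P.coeff i) ∧ P.eval 1 ≤ (c : ℤ) * (max |A| |B|) ^ k) →
      |p.coeff i| ≤ ((c1 + c2 + c3 + 1 : ℕ) : ℤ) * (max |A| |B|) ^ (k1 + k2 + k3) := by
    rintro p c k hc hk ⟨P, h4, h5⟩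
    have hP : ∀ i, 0 ≤ P.coeff i := fun i => (abs_nonneg _).trans (h4 i)
    refine ((h4 i).trans (coeff_le P hP i)).trans (h5.trans ?_)
    have h6 : (c : ℤ) ≤ ((c1 + c2 + c3 + 1 : ℕ) : ℤ) := by exact_mod_cast hc
    have h7 : (max |A| |B|) ^ k ≤ (max |A| |B|) ^ (k1 + k2 + k3) := pow_le_pow_right₀ hH hk
    have h8 : (0 : ℤ) ≤ (max |A| |B|) ^ k := pow_nonneg (by linarith) _
    exact mul_le_mul h6 h7 h8 (Int.natCast_nonneg _)
  exact ⟨key _ c1 k1 (by omega) (by omega) (h1 A B hH), key _ c2 k2 (by omega) (by omega)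
    (h2 A B hH), key _ c3 k3 (by omega) (by omega) (h3 A B hH)⟩

end Pool.Agent.Y465.TR
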